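import Mathlib
import Pool.Agent.Helper78.CG.Goals

/-! Packet CGL of the project CG. -/

namespace Pool.Agent.Helper32.CG

open Pool.Agent.Helper78.CG Pool.Agent.Helper78.DT Pool.Agent.Helper78.AO
  Pool.Agent.Helper78.JT
open scoped Classical

/-- the value of a list all of whose labels are `true` -/
lemma ev_true_iff {V : Type} (f : DL V) (hf : ∀ e ∈ f, e.2 = true) (x : V → Bool) :
    ev f x = true ↔ ∃ e ∈ f, Sat e.1 x := by
  induction f with
  | nil => simp [ev]
  | cons e f ih =>
    have ih' := ih (fun e' he' => hf e' (List.mem_cons_of_mem _ he'))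
    have he := hf e List.mem_cons_self
    by_cases hs : Sat e.1 x
    · simp only [ev, if_pos hs, he, true_iff]
      exact ⟨e, List.mem_cons_self, hs⟩
    · simp only [ev, if_neg hs]
      rw [ih']
      constructor
      · rintro ⟨e', h1, h2⟩
        exact ⟨e', List.mem_cons_of_mem _ h1, h2⟩
      · rintro ⟨e', h1, h2⟩
        rcases List.mem_cons.1 h1 with h1 | h1
        · subst h1; exact absurd h2 hs
        · exact ⟨e', h1, h2⟩

/-- the list of a set -/
noncomputable def fl {n : ℕ} (w : ℕ) (B : Set (Fin n → Bool)) : DL (Fin n) :=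
  ((Finset.univ : Finset (Tm (Fin n))).filter
    (fun T => T.card ≤ w ∧ ∀ x, Sat T x → x ∈ B)).toList.map fun T => (T, true)

lemma mem_fl {n : ℕ} (w : ℕ) (B : Set (Fin n → Bool)) (e : Tm (Fin n) × Bool) :
    e ∈ fl w B ↔ (e.1.card ≤ w ∧ ∀ x, Sat e.1 x → x ∈ B) ∧ e.2 = true := by
  unfold fl
  rw [List.mem_map]
  constructor
  · rintro ⟨T, hT, rfl⟩
    rw [Finset.mem_toList, Finset.mem_filter] at hT
    exact ⟨hT.2, rfl⟩
  · rintro ⟨h1, h2⟩
    refine ⟨e.1, ?_, ?_⟩
    · rw [Finset.mem_toList, Finset.mem_filter]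
      exact ⟨Finset.mem_univ _, h1⟩
    · rw [← h2]

lemma ev_fl_filter {n : ℕ} (w : ℕ) (B : Set (Fin n → Bool)) (p : Tm (Fin n) × Bool → Bool)
    (x : Fin n → Bool) (h : ev ((fl w B).filter p) x = true) : x ∈ B := by
  rw [ev_true_iff] at h
  · obtain ⟨e, he, hs⟩ := h
    rw [List.mem_filter, mem_fl] at he
    exact he.1.1.2 x hs
  · intro e he
    rw [List.mem_filter, mem_fl] at he
    exact he.1.2

lemma ev_fl {n : ℕ} (w : ℕ) (B : Set (Fin n → Bool)) (hB : Witnessed w B)
    (x : Fin n → Bool) (hx : x ∈ B) : ev (fl w B) x = true := by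
  rw [ev_true_iff]
  · obtain ⟨Q, hQ, hQ'⟩ := hB x hx
    refine ⟨(Q.image (fun v => (v, x v)), true), ?_, ?_⟩
    · rw [mem_fl]
      refine ⟨⟨Finset.card_image_le.trans hQ, ?_⟩, rfl⟩
      intro y hy
      apply hQ'
      intro v hv
      exact hy (v, x v) (Finset.mem_image_of_mem _ hv)
    · intro q hq
      rw [Finset.mem_image] at hq
      obtain ⟨v, _, rfl⟩ := hq
      rfl
  · intro e he
    rw [mem_fl] at he
    exact he.2

lemma bal_zero {n : ℕ} (h : ℕ → ℕ) (e : Tm (Fin n) × Bool) : bal 0 0 h e = true := by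
  unfold bal
  rw [decide_eq_true_iff]
  intro j hj
  omega

theorem cgl : CglStmt := by
  intro n w r A hA
  obtain ⟨B, hB, hAB⟩ := hA
  set H : (Fin r → Bool) → Bool := fun v => decide (∀ y', (∀ j, v j = true → y' ∈ B j) → y' ∈ A)
    with hH
  refine ⟨fun K t h β => H fun j => ev ((fl w (B j)).filter (bal K t h)) (fun v : Fin n => β v),
    ⟨fun j => fl w (B j), H, ?_, ?_⟩, ?_, ?_⟩
  · intro j e he
    rw [mem_fl] at he
    exact he.1.1
  · intro b h K t
    have : (fun v : Fin n => cf b v) = b := by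
      funext v
      simp [cf]
    simp only [this]
  · intro b hb
    have hcf : (fun v : Fin n => cf b v) = b := by
      funext v
      simp [cf]
    simp only [hcf, hH]
    rw [decide_eq_true_iff]
    intro y' hy'
    apply hAB b hb y'
    intro j hj
    apply hy' j
    have : (fl w (B j)).filter (bal 0 0 (fun _ => 0)) = fl w (B j) := by
      rw [List.filter_eq_self]
      intro e _
      exact bal_zero _ e
    rw [this]
    exact ev_fl w (B j) (hB j) b hj
  · intro K t h β hF
    simp only [hH] at hF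
    rw [decide_eq_true_iff] at hF
    apply hF
    intro j hj
    exact ev_fl_filter w (B j) _ _ hj

end Pool.Agent.Helper32.CG
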