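import Pool.Agent.Helper54.CG.Goals

/-!
# Project CG, packet FM2: the two points of the fibre over a point of `M`, on the ramification curve

With `x + y = 2 s`, `(x + y) x y = 2` the points are `![3x, -(3/4) x (x + 4y), 1]` and the same with
`x, y` exchanged.
-/

set_option autoImplicit false

namespace Pool.Agent.Helper32.CG.FM2

open MvPolynomial Pool.Agent.Helper16.Cusp Pool.Agent.Helper54.CG

lemma point {x y s : ℂ} (h1 : x + y = 2 * s) (h : (x + y) * x * y = 2) (hxy : x ≠ y)
    (hs : 8 * s ^ 3 ≠ -1) :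
    (3 * x) ^ 3 ≠ 27 ∧ eval ![3 * x, -(3 / 4) * x * (x + 4 * y), 1] pM ≠ 0 ∧
    eval ![3 * x, -(3 / 4) * x * (x + 4 * y), 1] pR = 0 ∧
    ∃ t : ℂ, t ≠ 0 ∧ Helper54.CG.phi ![3 * x, -(3 / 4) * x * (x + 4 * y), 1] = wsm t (pt s) := by
  have hx : x ≠ 0 := by
    rintro rfl
    simp at h
  have hs0 : s ≠ 0 := by
    rintro rfl
    rw [h1] at h
    simp at h
  have hsum : x + y ≠ 0 := by
    rw [h1]
    exact mul_ne_zero two_ne_zero hs0
  have e1 : 1 / s = x * y := by
    rw [div_eq_iff hs0]
    linear_combination (-1 / 2 : ℂ) * h + x * y / 2 * h1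
  have e2 : 1 / s ^ 2 = x ^ 2 * y ^ 2 := by
    calc 1 / s ^ 2 = (1 / s) ^ 2 := by rw [div_pow, one_pow]
      _ = x ^ 2 * y ^ 2 := by rw [e1]; ring
  have e3 : 2 / s = 2 * (x * y) := by
    calc 2 / s = 2 * (1 / s) := by ring
      _ = 2 * (x * y) := by rw [e1]
  have e4 : s = (x + y) / 2 := by rw [h1]; ring
  refine ⟨?_, ?_, ?_, 108 * x * (x + y), ?_, ?_⟩
  · intro h3
    have h4 : x ^ 3 = 1 := by linear_combination (1 / 27 : ℂ) * h3
    have h5 : x * ((2 * x + y) * (x - y)) = 0 := by
      linear_combination 2 * h4 - h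
    have h6 : 2 * x + y = 0 := by
      rcases mul_eq_zero.mp h5 with h6 | h6
      · exact absurd h6 hx
      · rcases mul_eq_zero.mp h6 with h7 | h7
        · exact h7
        · exact absurd (sub_eq_zero.mp h7) hxy
    apply hs
    have h7 : 2 * s = -x := by rw [← h1]; linear_combination h6
    calc 8 * s ^ 3 = (2 * s) ^ 3 := by ring
      _ = (-x) ^ 3 := by rw [h7]
      _ = -1 := by linear_combination -h4
  · have : eval ![3 * x, -(3 / 4) * x * (x + 4 * y), 1] pM = 27 / 4 * x ^ 2 * (x + y) * (x - y) ^ 3 := by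
      simp [pM]
      linear_combination (27 / 4 * x * (11 * x ^ 2 + 13 * x * y + y ^ 2) + 27 / 2) * h
    rw [this]
    refine mul_ne_zero (mul_ne_zero (mul_ne_zero (by norm_num) (pow_ne_zero 2 hx)) hsum)
      (pow_ne_zero 3 (sub_ne_zero.mpr hxy))
  · simp [pR]
    linear_combination (-432 * x) * h
  · exact mul_ne_zero (mul_ne_zero (by norm_num) hx) hsum
  · funext i
    fin_cases i
    · simp [Helper54.CG.phi, ff, pA, wsm, pt]
      rw [← one_div, e2, e4]
      linear_combination (-108 * x ^ 2 * y - 108) * h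
    · simp [Helper54.CG.phi, ff, pB, wsm, pt]
      rw [e3, e4]
      linear_combination (-2916 * ((x + y) * x * y + 2) - 17496 * x ^ 2 * (x + y)) * h
    · simp [Helper54.CG.phi, ff, pC, wsm, pt]
      ring

theorem t : G_FM2 := by
  intro s hs0 hs1 hs8
  obtain ⟨d, hd⟩ := IsAlgClosed.exists_pow_nat_eq ((s ^ 3 - 1) / s) (n := 2) (by norm_num)
  have hd2 : s * d ^ 2 = s ^ 3 - 1 := by
    rw [hd]
    field_simp
  have hd0 : d ≠ 0 := by
    rintro rfl
    apply hs1
    linear_combination -hd2
  have hne : s + d ≠ s - d := by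
    intro h
    apply hd0
    linear_combination (1 / 2 : ℂ) * h
  have h1 : (s + d) + (s - d) = 2 * s := by ring
  have h2 : (s - d) + (s + d) = 2 * s := by ring
  have h3 : ((s + d) + (s - d)) * (s + d) * (s - d) = 2 := by linear_combination (-2 : ℂ) * hd2
  have h4 : ((s - d) + (s + d)) * (s - d) * (s + d) = 2 := by linear_combination (-2 : ℂ) * hd2
  have p0 := point h1 h3 hne hs8
  have p1 := point h2 h4 hne.symm hs8
  refine ⟨![(3 * (s + d), -(3 / 4) * (s + d) * ((s + d) + 4 * (s - d))),
    (3 * (s - d), -(3 / 4) * (s - d) * ((s - d) + 4 * (s + d)))], ?_, ?_⟩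
  · intro i j hij
    fin_cases i <;> fin_cases j
    · rfl
    · exfalso
      apply hne
      have := congrArg Prod.fst hij
      simp at this
      linear_combination this
    · exfalso
      apply hne
      have := congrArg Prod.fst hij
      simp at this
      linear_combination -this
    · rfl
  · intro i
    fin_cases i
    · exact p0
    · exact p1

end Pool.Agent.Helper32.CG.FM2
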